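import Mathlib
import Pool.Agent.V1190.Nag.Moran

set_option autoImplicit false

open Set Metric Filter MeasureTheory
open scoped ENNReal NNReal Topology

/-!
A Lipschitz quasiconformal map of the plane which increases the Assouad dimension of a compact set.
-/

namespace Pool.Agent.Results.MP_c78a2a_an.LipschitzRaises

open Pool.Agent.V1190.Nag

/-- the set `A` has diameter at most `r` -/
def DiamLE {X : Type} [PseudoMetricSpace X] (A : Set X) (r : ℝ) : Prop :=
  ∀ x ∈ A, ∀ y ∈ A, dist x y ≤ r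

/-- `A` can be covered by at most `M` sets of diameter at most `r`, i.e. `N_r(A) ≤ M` -/
def CoverLE {X : Type} [PseudoMetricSpace X] (A : Set X) (r M : ℝ) : Prop :=
  ∃ 𝒰 : Finset (Set X), (𝒰.card : ℝ) ≤ M ∧ A ⊆ ⋃₀ (𝒰 : Set (Set X)) ∧ ∀ U ∈ 𝒰, DiamLE U r

/-- `α` is an admissible exponent in the definition of the Assouad dimension of `E` -/
def AssouadExp {X : Type} [PseudoMetricSpace X] (E : Set X) (α : ℝ) : Prop :=
  ∃ C : ℝ, 0 < C ∧ ∀ x ∈ E, ∀ r R : ℝ, 0 < r → r < R → CoverLE (ball x R ∩ E) r (C * (R / r) ^ α)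

/-- the Assouad dimension -/
noncomputable def assouadDim {X : Type} [PseudoMetricSpace X] (E : Set X) : ℝ≥0∞ :=
  ⨅ (α : ℝ≥0) (_ : AssouadExp E α), (α : ℝ≥0∞)

/-- `f` is a quasiconformal homeomorphism of `ℝⁿ` onto itself -/
def IsQC {n : ℕ} (f : Eu n → Eu n) : Prop := IsHomeomorph f ∧ BoundedDistortion univ f

/-! ### upper bound for the source set -/

/-- constant sequence `1/16` -/
noncomputable def b16 : ℕ → ℝ := fun _ => 1 / 16

lemma ok16 : ∀ i, Ok (b16 i) := fun _ => by unfold b16 Ok; norm_num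

lemma Bp16 (m : ℕ) : Bp b16 m = (1 / 16) ^ m := by unfold Bp b16; simp

lemma exp_source : AssouadExp (range (pt b16)) (1 / 4) := by
  classical
  refine ⟨4, by norm_num, ?_⟩
  rintro _ ⟨w, rfl⟩ r R hr hrR
  have hR : 0 < R := hr.trans hrR
  have ex1 : ∃ m : ℕ, 2 / 3 * (1 / 16 : ℝ) ^ m < R := by
    have h1 : Tendsto (fun m : ℕ => 2 / 3 * (1 / 16 : ℝ) ^ m) atTop (𝓝 0) := by
      have := (tendsto_pow_atTop_nhds_zero_of_lt_one (by norm_num : (0 : ℝ) ≤ 1 / 16)
        (by norm_num)).const_mul (2 / 3)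
      simpa using this
    exact (h1.eventually (gt_mem_nhds hR)).exists
  have ex2 : ∃ k : ℕ, 4 / 3 * (1 / 16 : ℝ) ^ k < r := by
    have h1 : Tendsto (fun m : ℕ => 4 / 3 * (1 / 16 : ℝ) ^ m) atTop (𝓝 0) := by
      have := (tendsto_pow_atTop_nhds_zero_of_lt_one (by norm_num : (0 : ℝ) ≤ 1 / 16)
        (by norm_num)).const_mul (4 / 3)
      simpa using this
    exact (h1.eventually (gt_mem_nhds hr)).exists
  set m := Nat.find ex1 with hm
  set k := Nat.find ex2 with hk
  have hm1 := Nat.find_spec ex1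
  have hk1 := Nat.find_spec ex2
  rw [← hm] at hm1
  rw [← hk] at hk1
  -- agreement on the first `m` digits
  have hag : ∀ w', dist (pt b16 w') (pt b16 w) < R → ∀ i < m, w i = w' i := by
    intro w' hd
    by_contra hno
    push Not at hno
    have hex : ∃ i, i < m ∧ w i ≠ w' i := hno
    set j := Nat.find hex with hj
    obtain ⟨hj1, hj2⟩ := Nat.find_spec hex
    have hj3 : ∀ i < j, w i = w' i := by
      intro i hi
      by_contra hne
      exact Nat.find_min hex hi ⟨hi.trans hj1, hne⟩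
    have h1 := (tt_agree j b16 ok16 w w' hj3).2 hj2
    rw [Bp16] at h1
    have h2 := Nat.find_min ex1 (m := j) (by rw [← hm]; exact hj1)
    rw [dist_pt, abs_sub_comm] at hd
    push Not at h2
    linarith
  have hy1 : 1 ≤ R / r := by rw [le_div_iff₀ hr]; linarith
  set y := (R / r) ^ (1 / 4 : ℝ) with hy
  have hy0 : 0 ≤ y := by positivity
  have hy4 : y ^ 4 = R / r := by
    rw [hy, ← Real.rpow_natCast, ← Real.rpow_mul (by positivity)]; norm_num
  have hyone : 1 ≤ y := Real.one_le_rpow hy1 (by norm_num)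
  rcases le_or_gt k m with hkm | hkm
  · refine ⟨{ball (pt b16 w) R ∩ range (pt b16)}, ?_, ?_, ?_⟩
    · simp; linarith
    · simp
    · intro U hU
      rw [Finset.mem_singleton] at hU
      subst hU
      rintro _ ⟨hx1, w1, rfl⟩ _ ⟨hx2, w2, rfl⟩
      have h1 := hag w1 hx1
      have h2 := hag w2 hx2
      have h3 := (tt_agree m b16 ok16 w1 w2 (fun i hi => (h1 i hi).symm.trans (h2 i hi))).1
      rw [dist_pt]
      rw [Bp16] at h3
      have h4 : (1 / 16 : ℝ) ^ m ≤ (1 / 16) ^ k := pow_le_pow_of_le_one (by norm_num) (by norm_num) hkm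
      linarith
  · obtain ⟨n, hn⟩ : ∃ n, k = m + n + 1 := ⟨k - m - 1, by omega⟩
    let V : (Fin (n + 1) → Bool) → Set E2 := fun u =>
      {z | ∃ w', z = pt b16 w' ∧ (∀ i < m, w i = w' i) ∧ ∀ i : Fin (n + 1), w' (m + i) = u i}
    refine ⟨Finset.univ.image V, ?_, ?_, ?_⟩
    · have h1 : ((Finset.univ.image V).card : ℝ) ≤ 2 ^ (n + 1) := by
        have : (Finset.univ.image V).card ≤ 2 ^ (n + 1) := by
          refine Finset.card_image_le.trans ?_
          simp
        exact_mod_cast this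
      refine h1.trans ?_
      -- `R / r > 16 ^ n / 2`
      have h2 := Nat.find_min ex2 (m := m + n) (by rw [← hk]; omega)
      push Not at h2
      have h3 : (16 : ℝ) ^ n / 2 ≤ R / r := by
        rw [le_div_iff₀ hr]
        have h5 : (0 : ℝ) < (1 / 16) ^ m := by positivity
        have h6 : (16 : ℝ) ^ n * (1 / 16) ^ (m + n) = (1 / 16) ^ m := by
          rw [pow_add, mul_comm ((1 / 16 : ℝ) ^ m), ← mul_assoc, ← mul_pow]; norm_num
        have h7 : (0 : ℝ) < 16 ^ n := by positivity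
        calc (16 : ℝ) ^ n / 2 * r ≤ (16 : ℝ) ^ n / 2 * (4 / 3 * (1 / 16) ^ (m + n)) := by gcongr
          _ = 2 / 3 * ((16 : ℝ) ^ n * (1 / 16) ^ (m + n)) := by ring
          _ = 2 / 3 * (1 / 16) ^ m := by rw [h6]
          _ ≤ R := hm1.le
      by_contra hcon
      push Not at hcon
      have h8 : y < 2 ^ n / 2 := by
        rw [pow_succ] at hcon; linarith
      have h9 : y ^ 4 < (2 ^ n / 2) ^ 4 := by gcongr
      rw [hy4] at h9
      have h10 : ((2 : ℝ) ^ n / 2) ^ 4 = 16 ^ n / 16 := by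
        rw [div_pow, ← pow_mul, mul_comm, pow_mul]; norm_num
      rw [h10] at h9
      have h7 : (0 : ℝ) < 16 ^ n := by positivity
      linarith
    · rintro _ ⟨hx, w', rfl⟩
      rw [mem_sUnion]
      refine ⟨V (fun i => w' (m + i)), ?_, w', rfl, hag w' hx, fun i => rfl⟩
      simp
    · intro U hU
      rw [Finset.mem_image] at hU
      obtain ⟨u, _, rfl⟩ := hU
      rintro _ ⟨w1, rfl, h1, h1'⟩ _ ⟨w2, rfl, h2, h2'⟩
      have h3 := (tt_agree k b16 ok16 w1 w2 (fun i hi => by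
        rcases lt_or_ge i m with him | him
        · exact (h1 i him).symm.trans (h2 i him)
        · have e : i = m + (⟨i - m, by omega⟩ : Fin (n + 1)).1 := by simp only; omega
          rw [e, h1', h2'])).1
      rw [dist_pt]
      rw [Bp16] at h3
      linarith

/-! ### lower bound for the image set -/

lemma exp_image {β : ℕ → ℝ} (hβ : ∀ i, Ok (β i))
    (hrun : ∀ l : ℕ, ∃ m : ℕ, Bp β (m + l) = (1 / 4) ^ l * Bp β m)
    {α : ℝ} (h : AssouadExp (range (pt β)) α) : 1 / 2 ≤ α := by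
  classical
  obtain ⟨C, hC, H⟩ := h
  by_contra hα
  push Not at hα
  have hq : (4 : ℝ) ^ α < 2 := by
    calc (4 : ℝ) ^ α < 4 ^ (1 / 2 : ℝ) := Real.rpow_lt_rpow_of_exponent_lt (by norm_num) hα
      _ = 2 := by
        rw [show (4 : ℝ) = 2 ^ (2 : ℝ) by norm_num, ← Real.rpow_mul (by norm_num)]; norm_num
  have hq0 : (0 : ℝ) < 4 ^ α := by positivity
  have hgrow : Tendsto (fun l : ℕ => (2 / (4 : ℝ) ^ α) ^ l) atTop atTop := by
    apply tendsto_pow_atTop_atTop_of_one_lt
    rw [lt_div_iff₀ hq0]; linarith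
  obtain ⟨l, hl, hl1⟩ := ((hgrow.eventually_gt_atTop (C * 2 ^ α)).and (eventually_ge_atTop 1)).exists
  obtain ⟨m, hm⟩ := hrun l
  have hB := Bp_pos hβ m
  have hB' := Bp_pos hβ (m + l)
  have hrR : Bp β (m + l) < 2 * Bp β m := by
    rw [hm]
    have : (1 / 4 : ℝ) ^ l ≤ 1 := pow_le_one₀ (by norm_num) (by norm_num)
    nlinarith
  obtain ⟨𝒰, h1, h2, h3⟩ := H (pt β (fun _ => false)) ⟨_, rfl⟩ (Bp β (m + l)) (2 * Bp β m) hB' hrR
  let W : (Fin l → Bool) → ℕ → Bool := fun u i =>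
    if h : m ≤ i ∧ i < m + l then u ⟨i - m, by omega⟩ else false
  have hWlt : ∀ u i, i < m → W u i = false := by
    intro u i hi; simp only [W]; rw [dif_neg (by omega)]
  have hWin : ∀ u (i : Fin l), W u (m + i) = u i := by
    intro u i
    simp only [W]
    rw [dif_pos ⟨by omega, by omega⟩]
    congr 1
    apply Fin.ext; simp
  have hmem : ∀ u, pt β (W u) ∈ ball (pt β (fun _ => false)) (2 * Bp β m) ∩ range (pt β) := by
    intro u
    refine ⟨?_, ⟨_, rfl⟩⟩
    rw [mem_ball, dist_pt]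
    have := (tt_agree m β hβ (W u) (fun _ => false) (fun i hi => hWlt u i hi)).1
    linarith
  choose! U hU hUmem using fun u => h2 (hmem u)
  have hinj : Function.Injective U := by
    intro u v huv
    by_contra hne
    have hex : ∃ i, i < m + l ∧ W u i ≠ W v i := by
      obtain ⟨i, hi⟩ := Function.ne_iff.1 hne
      exact ⟨m + i, by omega, by rw [hWin, hWin]; exact hi⟩
    set j := Nat.find hex with hj
    obtain ⟨hj1, hj2⟩ := Nat.find_spec hex
    have hj3 : ∀ i < j, W u i = W v i := by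
      intro i hi
      by_contra hne'
      exact Nat.find_min hex hi ⟨hi.trans hj1, hne'⟩
    have h5 := (tt_agree j β hβ (W u) (W v) hj3).2 hj2
    have h6 := h3 (U u) (hU u) (pt β (W u)) (hUmem u) (pt β (W v)) (by rw [huv]; exact hUmem v)
    rw [dist_pt] at h6
    have hanti : ∀ n, Bp β (j + 1 + n) ≤ Bp β (j + 1) := by
      intro n
      induction n with
      | zero => exact le_rfl
      | succ n ih =>
        rw [← add_assoc, Bp_succ]
        have h7 := Bp_pos hβ (j + 1 + n)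
        have h8 := (hβ (j + 1 + n)).2
        nlinarith
    have h7 := hanti (m + l - (j + 1))
    rw [show j + 1 + (m + l - (j + 1)) = m + l by omega, Bp_succ] at h7
    have h8 := (hβ j).2
    have h9 := Bp_pos hβ j
    nlinarith
  have hcard : (2 : ℝ) ^ l ≤ 𝒰.card := by
    have : Fintype.card (Fin l → Bool) ≤ 𝒰.card := by
      rw [← Finset.card_univ]
      exact Finset.card_le_card_of_injOn U (fun u _ => by simpa using hU u) hinj.injOn
    simp at this
    exact_mod_cast this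
  have hratio : 2 * Bp β m / Bp β (m + l) = 2 * 4 ^ l := by
    rw [hm]
    have : (0 : ℝ) < (1 / 4) ^ l := by positivity
    rw [div_eq_iff (by positivity)]
    have h5 : (4 : ℝ) ^ l * (1 / 4) ^ l = 1 := by rw [← mul_pow]; norm_num
    calc 2 * Bp β m = 2 * Bp β m * ((4 : ℝ) ^ l * (1 / 4) ^ l) := by rw [h5, mul_one]
      _ = _ := by ring
  rw [hratio, Real.mul_rpow (by norm_num) (by positivity), ← Real.rpow_natCast (4 : ℝ) l,
    ← Real.rpow_mul (by norm_num), mul_comm (l : ℝ) α, Real.rpow_mul (by norm_num),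
    Real.rpow_natCast] at h1
  rw [div_pow, lt_div_iff₀ (by positivity)] at hl
  have : (2 : ℝ) ^ l ≤ C * (2 ^ α * ((4 : ℝ) ^ α) ^ l) := hcard.trans h1
  linarith

/-! ### the height function -/

/-- the set of turning points -/
def TT : Set ℝ := {x | x = 0 ∨ ∃ j : ℕ, x = 4 ^ j}

/-- height -/
noncomputable def hh (m : ℕ) : ℝ := infDist (m : ℝ) TT

lemma hh_zero : hh 0 = 0 := by
  unfold hh
  apply infDist_zero_of_mem
  left; simp

lemma hh_nonneg (m : ℕ) : 0 ≤ hh m := infDist_nonneg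

lemma hh_step (m : ℕ) : |hh m - hh (m + 1)| ≤ 1 := by
  unfold hh
  have h1 := infDist_le_infDist_add_dist (s := TT) (x := (m : ℝ)) (y := ((m + 1 : ℕ) : ℝ))
  have h2 := infDist_le_infDist_add_dist (s := TT) (x := ((m + 1 : ℕ) : ℝ)) (y := (m : ℝ))
  have h3 : dist (m : ℝ) ((m + 1 : ℕ) : ℝ) = 1 := by
    rw [Real.dist_eq]; push_cast; simp
  rw [dist_comm, h3] at h2
  rw [h3] at h1
  rw [abs_le]; constructor <;> linarith

lemma hh_run (l : ℕ) : ∃ m : ℕ, hh m = l ∧ hh (m + l) = 0 := by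
  obtain ⟨j, hj⟩ : ∃ j : ℕ, 8 * l < 4 ^ j := by
    refine ⟨8 * l, Nat.lt_pow_self (by norm_num)⟩
  have hle : l ≤ 4 ^ j := by omega
  refine ⟨4 ^ j - l, ?_, ?_⟩
  · have hm : ((4 ^ j - l : ℕ) : ℝ) = 4 ^ j - l := by
      rw [Nat.cast_sub hle]; push_cast; ring
    have hj' : 8 * (l : ℝ) < 4 ^ j := by exact_mod_cast hj
    have hl0 : (0 : ℝ) ≤ l := Nat.cast_nonneg l
    unfold hh
    rw [hm]
    apply le_antisymm
    · have : infDist ((4 : ℝ) ^ j - l) TT ≤ dist ((4 : ℝ) ^ j - l) (4 ^ j) :=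
        infDist_le_dist_of_mem (Or.inr ⟨j, rfl⟩)
      rw [Real.dist_eq] at this
      simpa using this
    · have hne : TT.Nonempty := ⟨0, Or.inl rfl⟩
      rw [le_infDist hne]
      intro y hy
      rw [Real.dist_eq]
      rcases hy with rfl | ⟨i, rfl⟩
      · refine le_trans ?_ (le_abs_self _); linarith
      · rcases lt_trichotomy i j with hij | hij | hij
        · have : (4 : ℝ) ^ i * 4 ≤ 4 ^ j := by
            rw [← pow_succ]; exact pow_le_pow_right₀ (by norm_num) hij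
          refine le_trans ?_ (le_abs_self _); linarith
        · subst hij; simp
        · have : (4 : ℝ) ^ j * 4 ≤ 4 ^ i := by
            rw [← pow_succ]; exact pow_le_pow_right₀ (by norm_num) hij
          rw [abs_sub_comm]
          refine le_trans ?_ (le_abs_self _); linarith
  · have : 4 ^ j - l + l = 4 ^ j := by omega
    rw [this]
    unfold hh
    apply infDist_zero_of_mem
    right; exact ⟨j, by push_cast; ring⟩

/-- the target ratios -/
noncomputable def bb (i : ℕ) : ℝ := (1 / 16) * (4 : ℝ) ^ (hh i - hh (i + 1))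

lemma ok_bb (i : ℕ) : Ok (bb i) := by
  have h := abs_le.1 (hh_step i)
  unfold bb Ok
  have h1 : (4 : ℝ) ^ (-1 : ℝ) ≤ (4 : ℝ) ^ (hh i - hh (i + 1)) :=
    Real.rpow_le_rpow_of_exponent_le (by norm_num) h.1
  have h2 : (4 : ℝ) ^ (hh i - hh (i + 1)) ≤ (4 : ℝ) ^ (1 : ℝ) :=
    Real.rpow_le_rpow_of_exponent_le (by norm_num) h.2
  rw [Real.rpow_neg_one] at h1
  rw [Real.rpow_one] at h2
  constructor
  · linarith
  · linarith

lemma Bp_bb (m : ℕ) : Bp bb m = (1 / 16) ^ m * (4 : ℝ) ^ (-hh m) := by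
  induction m with
  | zero => simp [Bp, hh_zero]
  | succ m ih =>
    rw [Bp_succ, ih, bb]
    have : (4 : ℝ) ^ (-hh (m + 1)) = (4 : ℝ) ^ (-hh m) * (4 : ℝ) ^ (hh m - hh (m + 1)) := by
      rw [← Real.rpow_add (by norm_num)]; congr 1; ring
    rw [this]; ring

/-- the pair sequence -/
noncomputable def pp : PSeq := fun i => (b16 i, bb i)

lemma adm_pp : Adm pp := fun i => ⟨ok16 i, ok_bb i⟩

lemma prod_pp (m : ℕ) : ∏ i ∈ Finset.range m, ((pp i).2 / (pp i).1) ≤ 1 := by
  rw [Finset.prod_div_distrib]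
  have h1 : ∏ i ∈ Finset.range m, (pp i).2 = Bp bb m := rfl
  have h2 : ∏ i ∈ Finset.range m, (pp i).1 = Bp b16 m := rfl
  rw [h1, h2, Bp_bb, Bp16, mul_div_cancel_left₀ _ (by positivity)]
  exact Real.rpow_le_one_of_one_le_of_nonpos (by norm_num) (by linarith [hh_nonneg m])

theorem result : ∃ n : ℕ, 2 ≤ n ∧ ∃ f : Eu n → Eu n, IsQC f ∧ (∃ L : ℝ≥0, LipschitzWith L f) ∧
    ∃ E : Set (Eu n), assouadDim E < assouadDim (f '' E) := by
  refine ⟨2, le_rfl, Fi pp, ⟨(homeo pp adm_pp).isHomeomorph, boundedDistortion_Fi adm_pp prod_pp⟩,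
    ⟨48, Fi_lip adm_pp prod_pp⟩, range (pt b16), ?_⟩
  have himg : Fi pp '' range (pt b16) = range (pt bb) := by
    rw [← range_comp]
    congr 1
    funext w
    exact Fi_pt adm_pp w
  rw [himg]
  have h1 : assouadDim (range (pt b16)) ≤ ((1 / 4 : ℝ≥0) : ℝ≥0∞) :=
    iInf₂_le (1 / 4 : ℝ≥0) (by push_cast; exact exp_source)
  have h2 : ((1 / 2 : ℝ≥0) : ℝ≥0∞) ≤ assouadDim (range (pt bb)) := by
    refine le_iInf₂ fun α hα => ?_
    have := exp_image ok_bb (fun l => by
      obtain ⟨m, hm1, hm2⟩ := hh_run l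
      refine ⟨m, ?_⟩
      rw [Bp_bb, Bp_bb, hm1, hm2, neg_zero, Real.rpow_zero, mul_one, Real.rpow_neg (by norm_num),
        Real.rpow_natCast, pow_add]
      have e1 : (1 / 16 : ℝ) ^ l = (1 / 4) ^ l * (1 / 4) ^ l := by
        rw [← mul_pow]; norm_num
      have e2 : ((4 : ℝ) ^ l)⁻¹ = (1 / 4) ^ l := by
        rw [← inv_pow]; norm_num
      rw [e1, e2]; ring) hα
    have h3 : (1 / 2 : ℝ≥0) ≤ α := by
      rw [← NNReal.coe_le_coe]; push_cast; exact this
    exact_mod_cast h3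
  refine lt_of_le_of_lt h1 (lt_of_lt_of_le ?_ h2)
  rw [ENNReal.coe_lt_coe, ← NNReal.coe_lt_coe]
  push_cast
  norm_num

end Pool.Agent.Results.MP_c78a2a_an.LipschitzRaises
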